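import Pool.Agent.L5helper16.LG.Defs

/-! Two sets of integers with few collisions (St_B8 from St_B3 and St_B6). -/

set_option autoImplicit false

namespace Pool.Agent.L5helper46.LG

open Finset MeasureTheory ProbabilityTheory Filter Topology
open Pool.Agent.L5helper86.UL
open Pool.Agent.L5helper16.LG

/-- a positive number below `2 ^ l` has at most `l` prime factors -/
lemma card_pf {d l : ℕ} (hd : d ≠ 0) (hl : d < 2 ^ l) : #d.primeFactors ≤ l := by
  have h1 : 2 ^ #d.primeFactors ≤ ∏ p ∈ d.primeFactors, p :=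
    Finset.pow_card_le_prod _ _ _ fun p hp => (Nat.prime_of_mem_primeFactors hp).two_le
  have h2 : ∏ p ∈ d.primeFactors, p ≤ d := Nat.le_of_dvd (Nat.pos_of_ne_zero hd) (Nat.prod_primeFactors_dvd d)
  have h3 : 2 ^ #d.primeFactors < 2 ^ l := (h1.trans h2).trans_lt hl
  exact ((Nat.pow_lt_pow_iff_right (by norm_num)).1 h3).le

lemma pair_le {C : Finset ℕ} (hC : ∀ p ∈ C, p.Prime) {n n' l : ℕ} (hn : n < 2 ^ l) (hn' : n' < 2 ^ l)
    (hne : n ≠ n') : #(C.filter fun p => n % p = n' % p) ≤ l := by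
  obtain ⟨d, hd, hdl, hdd⟩ : ∃ d : ℕ, d ≠ 0 ∧ d < 2 ^ l ∧ ∀ p : ℕ, n % p = n' % p → p ∣ d := by
    rcases Nat.lt_or_ge n n' with h | h
    · exact ⟨n' - n, by omega, by omega, fun p hp => (Nat.modEq_iff_dvd' h.le).1 hp⟩
    · exact ⟨n - n', by omega, by omega, fun p hp => (Nat.modEq_iff_dvd' h).1 hp.symm⟩
  refine (Finset.card_le_card fun p hp => ?_).trans (card_pf hd hdl)
  rw [Finset.mem_filter] at hp
  exact Nat.mem_primeFactors.2 ⟨hC p hp.1, hdd p hp.2, hd⟩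

lemma cc_sum {C : Finset ℕ} (hC : ∀ p ∈ C, p.Prime) {S S' : Finset ℕ} {m₀ l : ℕ} (hS : #S ≤ m₀) (hS' : #S' ≤ m₀)
    (h : ∀ n ∈ S, n < 2 ^ l) (h' : ∀ n ∈ S', n < 2 ^ l) (hdis : Disjoint S S') :
    ∑ p ∈ C, cc S S' p ≤ m₀ ^ 2 * l := by
  classical
  unfold cc
  have e : ∑ p ∈ C, #((S ×ˢ S').filter fun q => q.1 % p = q.2 % p) =
      ∑ q ∈ S ×ˢ S', #(C.filter fun p => q.1 % p = q.2 % p) := by
    simp only [Finset.card_filter]
    exact Finset.sum_comm
  rw [e]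
  calc ∑ q ∈ S ×ˢ S', #(C.filter fun p => q.1 % p = q.2 % p) ≤ ∑ _q ∈ S ×ˢ S', l := by
        refine Finset.sum_le_sum fun q hq => ?_
        rw [Finset.mem_product] at hq
        exact pair_le hC (h _ hq.1) (h' _ hq.2) fun he => (Finset.disjoint_left.1 hdis hq.1) (he ▸ hq.2)
    _ = #S * #S' * l := by rw [Finset.sum_const, Finset.card_product, smul_eq_mul]
    _ ≤ m₀ * m₀ * l := Nat.mul_le_mul_right _ (Nat.mul_le_mul hS hS')
    _ = m₀ ^ 2 * l := by ring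

lemma VV_nonneg {Q : Finset ℕ} (h : ∀ p ∈ Q, 1 ≤ p) : 0 ≤ VV Q := by
  unfold VV
  refine Finset.prod_nonneg fun p hp => ?_
  have h1 : (1 : ℝ) ≤ p := by exact_mod_cast h p hp
  rw [sub_nonneg, div_le_one (by linarith)]
  exact h1

theorem b8 (B3 : St_B3) (B6 : St_B6) : St_B8 := by
  classical
  intro Ω _ P X hX Q hQ M hM hMQ S S' m₀ l hS hS' hl hl' hm hml hdis hinj hinj' hV
  -- the primes with a collision
  set C : Finset ℕ := Q.filter fun p => ∃ n ∈ S, ∃ n' ∈ S', n % p = n' % p with hCdef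
  set Q' : Finset ℕ := Q.filter fun p => ¬ ∃ n ∈ S, ∃ n' ∈ S', n % p = n' % p with hQ'def
  have hQC : Q' ∪ C = Q := by
    rw [hQ'def, hCdef, Finset.union_comm]
    exact Finset.filter_union_filter_not_eq _ _
  have hQCd : Disjoint Q' C := by
    rw [hQ'def, hCdef]
    exact (Finset.disjoint_filter_filter_not _ _ _).symm
  have hCQ : C ⊆ Q := Finset.filter_subset _ _
  have hQ'Q : Q' ⊆ Q := Finset.filter_subset _ _
  have hCp : ∀ p ∈ C, p.Prime := fun p hp => hQ p (hCQ hp)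
  have hsum := cc_sum hCp hS hS' hl hl' hdis
  have hcard : #C ≤ m₀ ^ 2 * l := by
    refine le_trans ?_ hsum
    rw [Finset.card_eq_sum_ones]
    refine Finset.sum_le_sum fun p hp => ?_
    rw [hCdef, Finset.mem_filter] at hp
    obtain ⟨-, n, hn, n', hn', he⟩ := hp
    unfold cc
    refine Finset.card_pos.2 ⟨(n, n'), ?_⟩
    rw [Finset.mem_filter, Finset.mem_product]
    exact ⟨⟨hn, hn'⟩, he⟩
  have hMr : (2 : ℝ) ≤ M := by exact_mod_cast hM
  have hM0 : (0 : ℝ) < M := by linarith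
  have h1M : 0 < 1 - 1 / (M : ℝ) := by
    rw [sub_pos, div_lt_one hM0]; linarith
  have hY : (4 : ℝ) * ((m₀ : ℝ) ^ 2 * l) ≤ M := by exact_mod_cast hml
  have hm' : (4 : ℝ) * m₀ ≤ M := by exact_mod_cast hm
  have hVQ' : 0 ≤ VV Q' := VV_nonneg fun p hp => (hQ p (hQ'Q hp)).one_lt.le
  have hVQ : 0 ≤ VV Q := VV_nonneg fun p hp => (hQ p hp).one_lt.le
  have hVmul : VV Q = VV Q' * VV C := by
    conv_lhs => rw [← hQC]
    unfold VV
    exact Finset.prod_union hQCd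
  have hVC : (1 - 1 / (M : ℝ)) ^ #C ≤ VV C := by
    unfold VV
    rw [← Finset.prod_const]
    refine Finset.prod_le_prod (fun _ _ => h1M.le) fun p hp => ?_
    have h2 : (M : ℝ) ≤ p := by exact_mod_cast hMQ p (hCQ hp)
    have := one_div_le_one_div_of_le hM0 h2
    linarith
  have hbern : 1 / 2 ≤ (1 - 1 / (M : ℝ)) ^ (m₀ + #C) := by
    have h2 := one_add_mul_le_pow (a := -(1 / (M : ℝ))) (by
      have : 1 / (M : ℝ) ≤ 1 := by rw [div_le_one hM0]; linarith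
      linarith) (m₀ + #C)
    have h3 : ((m₀ + #C : ℕ) : ℝ) ≤ M / 2 := by
      have h4 : (#C : ℝ) ≤ (m₀ : ℝ) ^ 2 * l := by exact_mod_cast hcard
      push_cast
      linarith
    have h5 : ((m₀ + #C : ℕ) : ℝ) * (1 / (M : ℝ)) ≤ 1 / 2 := by
      rw [mul_one_div, div_le_iff₀ hM0]; linarith
    rw [← sub_eq_add_neg] at h2
    linarith
  have hu : ((1 - 1 / (M : ℝ))⁻¹) ^ m₀ * VV Q' ≤ 2 * VV Q := by
    rw [inv_pow, inv_mul_le_iff₀ (pow_pos h1M _), hVmul]
    have h2 : VV Q' * (1 / 2) ≤ VV Q' * ((1 - 1 / (M : ℝ)) ^ m₀ * VV C) := by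
      apply mul_le_mul_of_nonneg_left _ hVQ'
      refine hbern.trans ?_
      rw [pow_add]
      exact mul_le_mul_of_nonneg_left hVC (pow_pos h1M _).le
    linarith
  have hmain := B6 P X hX Q' C (fun q hq => hQ q (hQ'Q hq)) hCp hQCd M hM
    (fun p hp => hMQ p (by rw [← hQC]; exact hp)) S S' m₀ hS hS' (by omega) hdis
    (fun p hp => hinj p (by rw [← hQC]; exact hp)) (fun p hp => hinj' p (by rw [← hQC]; exact hp))
    (fun p hp n hn n' hn' he => by
      rw [hQ'def, Finset.mem_filter] at hp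
      exact hp.2 ⟨n, hn, n', hn', he⟩) (2 * VV Q) hu (by linarith)
  rw [hQC] at hmain
  rw [B3 P X hX Q hQ S hinj, B3 P X hX Q hQ S' hinj']
  have hff : 0 ≤ ff Q #S * ff Q #S' := by
    rw [← B3 P X hX Q hQ S hinj, ← B3 P X hX Q hQ S' hinj']
    unfold HP
    positivity
  refine hmain.trans (mul_le_mul_of_nonneg_right ?_ hff)
  -- the product
  set y : ℝ := 16 * VV Q ^ 2 * ((m₀ : ℝ) ^ 2 * l) / M with hy
  have hprod : ∏ p ∈ C, (1 + 4 * (2 * VV Q) ^ 2 * (cc S S' p : ℝ) / p) ≤ Real.exp y := by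
    calc ∏ p ∈ C, (1 + 4 * (2 * VV Q) ^ 2 * (cc S S' p : ℝ) / p) ≤
        ∏ p ∈ C, Real.exp (16 * VV Q ^ 2 / M * (cc S S' p : ℝ)) := by
          refine Finset.prod_le_prod (fun p _ => by positivity) fun p hp => ?_
          have h2 : (M : ℝ) ≤ p := by exact_mod_cast hMQ p (hCQ hp)
          have h3 : 4 * (2 * VV Q) ^ 2 * (cc S S' p : ℝ) / p ≤ 16 * VV Q ^ 2 / M * (cc S S' p : ℝ) := by
            have e1 : 16 * VV Q ^ 2 / M * (cc S S' p : ℝ) = 4 * (2 * VV Q) ^ 2 * (cc S S' p : ℝ) / M := by ring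
            rw [e1]
            exact div_le_div_of_nonneg_left (by positivity) hM0 h2
          have h4 := Real.add_one_le_exp (16 * VV Q ^ 2 / M * (cc S S' p : ℝ))
          linarith
      _ = Real.exp (16 * VV Q ^ 2 / M * ((∑ p ∈ C, cc S S' p : ℕ) : ℝ)) := by
          rw [← Real.exp_sum, ← Finset.mul_sum]
          push_cast
          rfl
      _ ≤ Real.exp y := by
          apply Real.exp_le_exp.2
          have h2 : ((∑ p ∈ C, cc S S' p : ℕ) : ℝ) ≤ (m₀ : ℝ) ^ 2 * l := by exact_mod_cast hsum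
          have e1 : y = 16 * VV Q ^ 2 / M * ((m₀ : ℝ) ^ 2 * l) := by rw [hy]; ring
          rw [e1]
          exact mul_le_mul_of_nonneg_left h2 (by positivity)
  refine hprod.trans ?_
  have hy0 : 0 ≤ y := by positivity
  have hy1 : y ≤ 1 := by
    rw [hy, div_le_one hM0]
    have h2 : VV Q ^ 2 ≤ 1 / 36 := by nlinarith
    have h3 : 16 * VV Q ^ 2 * ((m₀ : ℝ) ^ 2 * l) ≤ 16 * (1 / 36) * ((m₀ : ℝ) ^ 2 * l) := by
      apply mul_le_mul_of_nonneg_right _ (by positivity)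
      linarith
    have h4 : (0 : ℝ) ≤ (m₀ : ℝ) ^ 2 * l := by positivity
    linarith
  have h2 := Real.abs_exp_sub_one_le (x := y) (by rw [abs_of_nonneg hy0]; exact hy1)
  rw [abs_of_nonneg hy0] at h2
  have h3 := (abs_le.1 h2).2
  have h4 : 2 * y ≤ 100 * VV Q ^ 2 * ((m₀ : ℝ) ^ 2 * l) / M := by
    have e1 : 2 * y = 32 * VV Q ^ 2 * ((m₀ : ℝ) ^ 2 * l) / M := by rw [hy]; ring
    rw [e1]
    apply div_le_div_of_nonneg_right _ hM0.le
    apply mul_le_mul_of_nonneg_right _ (by positivity)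
    nlinarith [sq_nonneg (VV Q)]
  linarith

end Pool.Agent.L5helper46.LG
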